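import Pool.Agent.Y677.RSZ.Stm

set_option autoImplicit false

/-!
# RSZ-POLY: polynomials without fixed prime divisor are systems
-/

open Finset

namespace Pool.Agent.Y67.RSZ

open Pool.Agent.Y677.RSZ
open Polynomial

lemma eval_mod (f : ℤ[X]) (p : ℕ) (n : ℤ) :
    (f.map (Int.castRingHom (ZMod p))).eval (n : ZMod p) = ((f.eval n : ℤ) : ZMod p) := by
  rw [Polynomial.eval_intCast_map]
  rfl

lemma rt_le (f : ℤ[X]) {p : ℕ} (hp : p.Prime) {n₀ : ℤ} (h₀ : ¬ (p : ℤ) ∣ f.eval n₀) :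
    rt (fun n => f.eval n) p ≤ f.natDegree := by
  classical
  haveI := Fact.mk hp
  set fp := f.map (Int.castRingHom (ZMod p)) with hfp
  have hne : fp ≠ 0 := by
    intro h
    apply h₀
    have := eval_mod f p n₀
    rw [← hfp, h, eval_zero] at this
    exact (ZMod.intCast_zmod_eq_zero_iff_dvd _ _).1 this.symm
  unfold rt
  calc ((range p).filter (fun r : ℕ => (p : ℤ) ∣ f.eval (r : ℤ))).card
      ≤ fp.roots.toFinset.card := by
        refine Finset.card_le_card_of_injOn (fun r : ℕ => (r : ZMod p)) ?_ ?_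
        · intro r hr
          rw [Finset.mem_coe, Finset.mem_filter] at hr
          rw [Finset.mem_coe, Multiset.mem_toFinset, mem_roots hne, IsRoot.def]
          have := eval_mod f p (r : ℤ)
          rw [← hfp] at this
          push_cast at this
          rw [this]
          exact (ZMod.intCast_zmod_eq_zero_iff_dvd _ _).2 hr.2
        · intro a ha b hb hab
          rw [Finset.mem_coe, Finset.mem_filter, Finset.mem_range] at ha hb
          have := (ZMod.natCast_eq_natCast_iff' a b p).1 hab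
          rwa [Nat.mod_eq_of_lt ha.1, Nat.mod_eq_of_lt hb.1] at this
    _ ≤ Multiset.card fp.roots := Multiset.toFinset_card_le _
    _ ≤ fp.natDegree := card_roots' fp
    _ ≤ f.natDegree := natDegree_map_le

lemma rt_lt (f : ℤ[X]) {p : ℕ} (hp : p.Prime) {n₀ : ℤ} (h₀ : ¬ (p : ℤ) ∣ f.eval n₀) :
    rt (fun n => f.eval n) p < p := by
  unfold rt
  have hp0 : (0 : ℤ) < p := by exact_mod_cast hp.pos
  obtain ⟨r, hr⟩ : ∃ r : ℕ, (r : ℤ) = n₀ % p := ⟨(n₀ % p).toNat, Int.toNat_of_nonneg (Int.emod_nonneg _ hp0.ne')⟩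
  have hrp : r < p := by
    have := Int.emod_lt_of_pos n₀ hp0
    rw [← hr] at this
    exact_mod_cast this
  have hnr : ¬ (p : ℤ) ∣ f.eval (r : ℤ) := by
    intro h
    apply h₀
    have h1 : (n₀ - r) ∣ f.eval n₀ - f.eval (r : ℤ) := sub_dvd_eval_sub n₀ r f
    have h2 : (p : ℤ) ∣ n₀ - r := by
      rw [hr]
      exact Int.dvd_self_sub_emod
    have := (h2.trans h1)
    exact (Int.dvd_iff_dvd_of_dvd_sub this).2 h
  have hss : (range p).filter (fun r : ℕ => (p : ℤ) ∣ f.eval (r : ℤ)) ⊂ range p := by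
    refine ⟨Finset.filter_subset _ _, fun h => ?_⟩
    have := h (Finset.mem_range.2 hrp)
    rw [Finset.mem_filter] at this
    exact hnr this.2
  have := Finset.card_lt_card hss
  rwa [Finset.card_range] at this

/-- the resultant of `f(x)` and `f(x + y)`, as a polynomial in `y` -/
noncomputable def DD (f : ℤ[X]) : ℤ[X] :=
  resultant (f.map (C : ℤ →+* ℤ[X])) ((f.map (C : ℤ →+* ℤ[X])).comp (X + C X)) f.natDegree f.natDegree

lemma DD_eval (f : ℤ[X]) (h : ℤ) :
    (DD f).eval h = resultant f (f.comp (X + C h)) f.natDegree f.natDegree := by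
  have h1 := resultant_map_map (f.map (C : ℤ →+* ℤ[X])) ((f.map (C : ℤ →+* ℤ[X])).comp (X + C X))
    f.natDegree f.natDegree (evalRingHom h)
  have h2 : (f.map (C : ℤ →+* ℤ[X])).map (evalRingHom h) = f := by
    rw [Polynomial.map_map]
    have : (evalRingHom h).comp (C : ℤ →+* ℤ[X]) = RingHom.id ℤ := by
      ext
      simp
    rw [this, Polynomial.map_id]
  rw [Polynomial.map_comp, h2] at h1
  have h3 : (X + C X : ℤ[X][X]).map (evalRingHom h) = X + C h := by
    simp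
  rw [h3] at h1
  rw [h1]
  rfl

lemma DD_dvd (f : ℤ[X]) (hd : f.natDegree ≠ 0) (h n : ℤ) (p : ℤ) (h1 : p ∣ f.eval n)
    (h2 : p ∣ f.eval (n + h)) : p ∣ (DD f).eval h := by
  obtain ⟨a, b, -, -, e⟩ := exists_mul_add_mul_eq_C_resultant (m := f.natDegree) (n := f.natDegree) f
    (f.comp (X + C h)) le_rfl (by rw [natDegree_comp, natDegree_X_add_C, mul_one]) (Or.inl hd)
  have e1 := congrArg (eval n) e
  rw [eval_add, eval_mul, eval_mul, eval_C, eval_comp, eval_add, eval_X, eval_C, ← DD_eval] at e1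
  rw [← e1]
  exact dvd_add (Dvd.dvd.mul_right h1 _) (Dvd.dvd.mul_right h2 _)

lemma DD_ne (f : ℤ[X]) (hf : f ≠ 0) : ∃ B : ℕ, ∀ h : ℕ, B ≤ h → (DD f).eval (h : ℤ) ≠ 0 := by
  classical
  set fc : ℂ[X] := f.map (Int.castRingHom ℂ) with hfc
  have hinj : Function.Injective (Int.castRingHom ℂ) := by
    intro a b hab
    simpa using hab
  have hfc0 : fc ≠ 0 := (Polynomial.map_ne_zero_iff hinj).2 hf
  -- a bound for the roots
  obtain ⟨B, hB⟩ : ∃ B : ℝ, ∀ z ∈ fc.roots.toFinset, ‖z‖ ≤ B :=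
    ⟨∑ z ∈ fc.roots.toFinset, ‖z‖, fun z hz =>
      Finset.single_le_sum (f := fun z : ℂ => ‖z‖) (fun _ _ => norm_nonneg _) hz⟩
  refine ⟨⌊2 * |B|⌋₊ + 1, fun h hh h0 => ?_⟩
  have hh' : 2 * |B| < h := by
    have h1 := Nat.lt_floor_add_one (2 * |B|)
    have h2 : ((⌊2 * |B|⌋₊ + 1 : ℕ) : ℝ) ≤ h := by exact_mod_cast hh
    push_cast at h2
    linarith
  rw [DD_eval] at h0
  have h1 := resultant_map_map f (f.comp (X + C (h : ℤ))) f.natDegree f.natDegree (Int.castRingHom ℂ)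
  rw [h0, map_zero, Polynomial.map_comp] at h1
  have h3 : (X + C (h : ℤ) : ℤ[X]).map (Int.castRingHom ℂ) = X + C (h : ℂ) := by
    simp
  rw [h3, ← hfc] at h1
  have hdeg : fc.natDegree = f.natDegree := natDegree_map_eq_of_injective hinj f
  have hdeg2 : (fc.comp (X + C (h : ℂ))).natDegree = f.natDegree := by
    rw [natDegree_comp, natDegree_X_add_C, mul_one, hdeg]
  have h4 : resultant fc (fc.comp (X + C (h : ℂ))) = 0 := by
    rw [hdeg, hdeg2]
    exact h1
  rw [resultant_eq_zero_iff] at h4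
  have h5 := h4.2
  rw [isCoprime_iff_aeval_ne_zero_of_isAlgClosed ℂ ℂ] at h5
  push Not at h5
  obtain ⟨z, hz1, hz2⟩ := h5
  rw [coe_aeval_eq_eval] at hz1 hz2
  rw [eval_comp, eval_add, eval_X, eval_C] at hz2
  have m1 : z ∈ fc.roots.toFinset := by
    rw [Multiset.mem_toFinset, mem_roots hfc0]
    exact hz1
  have m2 : z + h ∈ fc.roots.toFinset := by
    rw [Multiset.mem_toFinset, mem_roots hfc0]
    exact hz2
  have b1 := hB _ m1
  have b2 := hB _ m2
  have b3 : (h : ℝ) ≤ ‖z + h‖ + ‖z‖ := by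
    have e1 : ‖(h : ℂ)‖ = h := Complex.norm_natCast h
    have e2 : (h : ℂ) = (z + h) - z := by ring
    rw [← e1]
    conv_lhs => rw [e2]
    exact norm_sub_le _ _
  have b4 := le_abs_self B
  linarith

lemma growth (D : ℤ[X]) : ∃ g : ℕ, ∀ k h : ℕ, g ≤ k → g ≤ h → (D.eval (h : ℤ)).natAbs ≤ h ^ k := by
  set S : ℕ := ∑ i ∈ range (D.natDegree + 1), (D.coeff i).natAbs with hS
  refine ⟨D.natDegree + 1 + S, fun k h hk hh => ?_⟩
  have hh1 : 1 ≤ h := by omega
  rw [eval_eq_sum_range]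
  calc (∑ i ∈ range (D.natDegree + 1), D.coeff i * (h : ℤ) ^ i).natAbs
      ≤ ∑ i ∈ range (D.natDegree + 1), (D.coeff i * (h : ℤ) ^ i).natAbs := by
        have := Int.natAbs_sum_le (range (D.natDegree + 1)) (fun i => D.coeff i * (h : ℤ) ^ i)
        exact this
    _ ≤ ∑ i ∈ range (D.natDegree + 1), (D.coeff i).natAbs * h ^ D.natDegree := by
        refine Finset.sum_le_sum fun i hi => ?_
        rw [Int.natAbs_mul, Int.natAbs_pow, Int.natAbs_natCast]
        have : i ≤ D.natDegree := by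
          rw [Finset.mem_range] at hi
          omega
        exact Nat.mul_le_mul_left _ (Nat.pow_le_pow_right hh1 this)
    _ = S * h ^ D.natDegree := by rw [← Finset.sum_mul]
    _ ≤ h * h ^ D.natDegree := Nat.mul_le_mul_right _ (by omega)
    _ = h ^ (D.natDegree + 1) := by rw [pow_succ]; ring
    _ ≤ h ^ k := Nat.pow_le_pow_right hh1 (by omega)

theorem poly : S_POLY := by
  intro f hf hfix
  have hper : ∀ p : ℕ, p.Prime → ∀ n : ℤ, (p : ℤ) ∣ f.eval (n + p) - f.eval n := by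
    intro p _ n
    have := sub_dvd_eval_sub (n + p) n f
    rwa [add_sub_cancel_left] at this
  by_cases hd : f.natDegree = 0
  · refine ⟨0, ⟨hper, ?_, fun _ => 1, fun h _ => ⟨le_rfl, by simp, ?_⟩⟩⟩
    · intro p hp
      obtain ⟨n₀, h₀⟩ := hfix p hp
      exact ⟨hd ▸ rt_le f hp h₀, rt_lt f hp h₀⟩
    · intro p hp n h1 _
      exfalso
      obtain ⟨n₀, h₀⟩ := hfix p hp
      rw [eq_C_of_natDegree_eq_zero hd, eval_C] at h1 h₀
      exact h₀ h1
  · obtain ⟨B, hB⟩ := DD_ne f hf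
    obtain ⟨g, hg⟩ := growth (DD f)
    refine ⟨f.natDegree + B + g, ⟨hper, ?_, fun h => ((DD f).eval (h : ℤ)).natAbs, fun h hh => ⟨?_, ?_, ?_⟩⟩⟩
    · intro p hp
      obtain ⟨n₀, h₀⟩ := hfix p hp
      exact ⟨(rt_le f hp h₀).trans (by omega), rt_lt f hp h₀⟩
    · exact Nat.one_le_iff_ne_zero.2 (Int.natAbs_ne_zero.2 (hB h (by omega)))
    · exact hg _ _ (by omega) (by omega)
    · intro p _ n h1 h2
      have := DD_dvd f hd h n p h1 h2
      exact Int.natCast_dvd.1 this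

end Pool.Agent.Y67.RSZ
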